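import Pool.Agent.Helper98.TQ.Quad
import Pool.Agent.Helper92.TW.Inj
import Pool.Agent.Helper78.TW.Quad

/-!
# TOWERS, quadric cones: away from the vertices
-/

set_option autoImplicit false

namespace Pool.Agent.Helper98.TQ

open NumberField MvPolynomial Pool.Agent.Helper4.CB Pool.Agent.Helper69.CB
open Pool.Agent.Helper49.QU Pool.Agent.Helper65.TW
open Pool.Agent.Helper78.TW (qp qp_prime qp_irreducible map_qp qp_isHomogeneous)

section

variable {R : Type} [CommRing R] [IsDomain R] [CharZero R] {N : ℕ}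

/-- the torsion of a quadric cone -/
theorem mem_tors_iff (q : Matrix (Fin N) (Fin N) R) (hq : q.IsSymm)
    (h3 : ∃ f g : Fin 3 → Fin N, (q.submatrix f g).det ≠ 0) (c : MvPolynomial (Fin N) R) :
    Ideal.Quotient.mk (Ideal.span {qp q}) c ∈ tors R (MvPolynomial (Fin N) R ⧸ Ideal.span {qp q}) ↔
      qp (q.map (algebraMap R (FractionRing R))) ∣ map (algebraMap R (FractionRing R)) c := by
  classical
  let F : Type := FractionRing R
  have hF : CharZero F := IsFractionRing.charZero_of_isFractionRing R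
  have hinjF : Function.Injective (algebraMap R F) := IsFractionRing.injective R F
  let q' : Matrix (Fin N) (Fin N) F := q.map (algebraMap R F)
  have hq' : q'.IsSymm := hq.map _
  have h3' : ∃ f g : Fin 3 → Fin N, (q'.submatrix f g).det ≠ 0 := by
    obtain ⟨f, g, h⟩ := h3
    refine ⟨f, g, fun h0 => h ?_⟩
    apply hinjF
    rw [map_zero, ← h0, RingHom.map_det]
    rfl
  have hirr := qp_irreducible q' hq' h3'
  constructor
  · rintro ⟨r, hr0, n, hn⟩
    have h1 : Ideal.Quotient.mk (Ideal.span {qp q}) ((C r * c) ^ n) = 0 := by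
      rw [← hn, map_pow, map_mul, Algebra.smul_def]
      rfl
    rw [Ideal.Quotient.eq_zero_iff_mem, Ideal.mem_span_singleton] at h1
    have h2 : qp q' ∣ map (algebraMap R F) ((C r * c) ^ n) := by
      have h3 := map_dvd (map (algebraMap R F)) h1
      rwa [map_qp] at h3
    rw [map_pow, map_mul, map_C] at h2
    have h4 := hirr.prime.dvd_of_dvd_pow h2
    have h5 : IsUnit (C (algebraMap R F r) : MvPolynomial (Fin N) F) := by
      refine (IsUnit.mk0 _ ?_).map C
      rwa [Ne, map_eq_zero_iff _ hinjF]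
    exact (h5.dvd_mul_left).1 h4
  · rintro ⟨S, hS⟩
    obtain ⟨c0, hc, S', hS'⟩ : ∃ c : R, c ≠ 0 ∧ ∃ S' : MvPolynomial (Fin N) R,
        map (algebraMap R F) S' = C (algebraMap R F c) * S := by
      let iA := algebraMvPolynomial (σ := Fin N) (R := R) (S := F)
      obtain ⟨⟨S', ⟨_, c, hc, rfl⟩⟩, h⟩ :=
        IsLocalization.surj ((nonZeroDivisors R).map (C (σ := Fin N))) S
      refine ⟨c, nonZeroDivisors.ne_zero hc, S', ?_⟩
      simp only [algebraMap_def, map_C] at h
      rw [← h, mul_comm]
    refine ⟨c0, hc, ?_⟩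
    have h2 : C c0 * c = qp q * S' := by
      apply map_injective (algebraMap R F) hinjF
      rw [map_mul, map_mul, map_C, hS, hS', map_qp]
      ring
    have h3 : algebraMap R (MvPolynomial (Fin N) R ⧸ Ideal.span {qp q}) c0 *
        Ideal.Quotient.mk (Ideal.span {qp q}) c = 0 := by
      have h4 : algebraMap R (MvPolynomial (Fin N) R ⧸ Ideal.span {qp q}) c0 *
          Ideal.Quotient.mk (Ideal.span {qp q}) c =
          Ideal.Quotient.mk (Ideal.span {qp q}) (C c0 * c) := by
        rw [map_mul]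
        rfl
      rw [h4, Ideal.Quotient.eq_zero_iff_mem, h2]
      exact Ideal.mul_mem_right _ _ (Ideal.mem_span_singleton_self _)
    rw [Algebra.smul_def, h3]
    exact IsNilpotent.zero

attribute [local instance] MvPolynomial.gradedAlgebra in
/-- the torsion is homogeneous -/
theorem tors_homog (q : Matrix (Fin N) (Fin N) R) (hq : q.IsSymm)
    (h3 : ∃ f g : Fin 3 → Fin N, (q.submatrix f g).det ≠ 0) (c : MvPolynomial (Fin N) R)
    (hc : Ideal.Quotient.mk (Ideal.span {qp q}) c ∈
      tors R (MvPolynomial (Fin N) R ⧸ Ideal.span {qp q})) (d : ℕ) :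
    Ideal.Quotient.mk (Ideal.span {qp q}) (homogeneousComponent d c) ∈
      tors R (MvPolynomial (Fin N) R ⧸ Ideal.span {qp q}) := by
  rw [mem_tors_iff q hq h3] at hc ⊢
  have h1 : (Ideal.span {qp (q.map (algebraMap R (FractionRing R)))}).IsHomogeneous
      (homogeneousSubmodule (Fin N) (FractionRing R)) := by
    refine Ideal.homogeneous_span _ _ ?_
    rintro x rfl
    exact ⟨2, (mem_homogeneousSubmodule _ _).2 (qp_isHomogeneous _)⟩
  rw [← Ideal.mem_span_singleton] at hc ⊢
  have h2 := homogeneousComponent_mem_of_mem h1 hc d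
  have h4 : homogeneousComponent d (map (algebraMap R (FractionRing R)) c) =
      map (algebraMap R (FractionRing R)) (homogeneousComponent d c) := by
    ext m
    rw [coeff_homogeneousComponent, coeff_map, coeff_map, coeff_homogeneousComponent]
    split_ifs
    · rfl
    · rw [map_zero]
  rwa [h4] at h2

/-- no coordinate is torsion -/
theorem X_not_tors (q : Matrix (Fin N) (Fin N) R) (hq : q.IsSymm)
    (h3 : ∃ f g : Fin 3 → Fin N, (q.submatrix f g).det ≠ 0) (k : Fin N) :
    Ideal.Quotient.mk (Ideal.span {qp q}) (X k) ∉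
      tors R (MvPolynomial (Fin N) R ⧸ Ideal.span {qp q}) := by
  rw [mem_tors_iff q hq h3]
  intro h
  have hF : CharZero (FractionRing R) := IsFractionRing.charZero_of_isFractionRing R
  have hinjF : Function.Injective (algebraMap R (FractionRing R)) :=
    IsFractionRing.injective R (FractionRing R)
  have h3' : ∃ f g : Fin 3 → Fin N,
      ((q.map (algebraMap R (FractionRing R))).submatrix f g).det ≠ 0 := by
    obtain ⟨f, g, h⟩ := h3
    refine ⟨f, g, fun h0 => h ?_⟩
    apply hinjF
    rw [map_zero, ← h0, RingHom.map_det]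
    rfl
  have hirr := qp_irreducible _ (hq.map _) h3'
  rw [map_X] at h
  have h1 := totalDegree_le_of_dvd_of_isDomain h (X_ne_zero k)
  rw [totalDegree_X, (qp_isHomogeneous _).totalDegree hirr.ne_zero] at h1
  omega

end

/-- **TQ'.** quadric cones away from the vertices; the ideal of the `3 × 3` minors -/
theorem su_quad' {K R : Type} [Field K] [NumberField K] [CommRing R]
    [IsDomain R] [Algebra K R] [Algebra.FiniteType K R] {t : Ideal R} (h : SU K R t)
    (ht : t ≠ ⊥) {N s : ℕ} (q : Matrix (Fin N) (Fin N) R) (hq : q.IsSymm)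
    (hs : t ^ s ≤ Ideal.span (Set.range fun fg : (Fin 3 → Fin N) × (Fin 3 → Fin N) =>
      (q.submatrix fg.1 fg.2).det)) :
    SU K (Gen R (MvPolynomial (Fin N) R ⧸ Ideal.span {∑ j, ∑ k,
        MvPolynomial.C (q j k) * MvPolynomial.X j * MvPolynomial.X k}))
      (t.map (algebraMap R _) * Ideal.span (Set.range fun k =>
        (Ideal.Quotient.mk (tors R _) (Ideal.Quotient.mk _ (MvPolynomial.X k)) :
          Gen R (MvPolynomial (Fin N) R ⧸ Ideal.span {∑ j, ∑ k,
            MvPolynomial.C (q j k) * MvPolynomial.X j * MvPolynomial.X k})))) := by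
  classical
  have hchar : CharZero R := charZero_of_injective_algebraMap (algebraMap K R).injective
  have h3 : ∃ f g : Fin 3 → Fin N, (q.submatrix f g).det ≠ 0 := by
    by_contra hcon
    push Not at hcon
    have h1 : Ideal.span (Set.range fun fg : (Fin 3 → Fin N) × (Fin 3 → Fin N) =>
      (q.submatrix fg.1 fg.2).det) = ⊥ := by
      rw [Ideal.span_eq_bot]
      rintro _ ⟨fg, rfl⟩
      exact hcon fg.1 fg.2
    rw [h1, le_bot_iff] at hs
    exact pow_ne_zero s ht hs
  obtain ⟨k0⟩ : Nonempty (Fin N) := by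
    obtain ⟨f0, -, -⟩ := h3
    exact ⟨f0 0⟩
  let S : Type := Gen R (QA q)
  have hprime : (tors R (QA q)).IsPrime := Pool.Agent.Helper78.TW.quad_tors_prime q hq h3
  have hS : IsDomain S := Ideal.Quotient.isDomain _
  have hinj : Function.Injective (algebraMap R S) :=
    Pool.Agent.Helper78.TW.quad_algebraMap_injective q hq h3
  have hSU : SU K S (t.map (algebraMap R S)) := su_quad h ht q hq hs
  let π : MvPolynomial (Fin N) R →ₐ[R] S :=
    (Ideal.Quotient.mkₐ R (tors R (QA q))).comp (Ideal.Quotient.mkₐ R (qI q))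
  have hπ : Function.Surjective π :=
    (Ideal.Quotient.mkₐ_surjective R _).comp (Ideal.Quotient.mkₐ_surjective R _)
  let I0 : Ideal (MvPolynomial (Fin N) R) := RingHom.ker π
  have hmem : ∀ c, c ∈ I0 ↔ Ideal.Quotient.mk (qI q) c ∈ tors R (QA q) := by
    intro c
    rw [RingHom.mem_ker]
    exact Ideal.Quotient.eq_zero_iff_mem
  have hI0 : I0.IsPrime := RingHom.ker_isPrime π
  let e : (MvPolynomial (Fin N) R ⧸ I0) ≃ₐ[R] S := Ideal.quotientKerAlgEquivOfSurjective hπ
  have he : ∀ c, e (Ideal.Quotient.mk I0 c) = π c := fun c => rfl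
  obtain ⟨hfin, -⟩ := Pool.Agent.Helper92.TW.su_proj_full hinj hSU t 1 (by rw [pow_one]) I0
    (fun f hf d => (hmem _).2 (tors_homog q hq h3 f ((hmem _).1 hf) d))
    (fun f hf => ⟨e.toAlgHom, fun h0 => hf (e.injective (h0.trans (map_zero e).symm)), k0,
      fun h0 => X_not_tors q hq h3 k0 (Ideal.Quotient.eq_zero_iff_mem.1 h0)⟩)
  have hfS : Algebra.FiniteType K S := by
    have h1 : Algebra.FiniteType R S := inferInstance
    exact Algebra.FiniteType.trans (inferInstance : Algebra.FiniteType K R) h1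
  let j : S →ₐ[K] (MvPolynomial (Fin N) R ⧸ I0) :=
    (e.symm.toAlgHom : S →ₐ[R] (MvPolynomial (Fin N) R ⧸ I0)).restrictScalars K
  have hj : Function.Injective j := e.symm.injective
  refine hfin.sub j hj _ 1 ?_
  have h5 : (t.map (algebraMap R S)).map j =
      t.map (algebraMap R (MvPolynomial (Fin N) R ⧸ I0)) := by
    have h1 : (j : S →+* (MvPolynomial (Fin N) R ⧸ I0)).comp (algebraMap R S) =
        algebraMap R (MvPolynomial (Fin N) R ⧸ I0) := by
      ext r
      exact e.symm.commutes r
    rw [← h1, ← Ideal.map_map]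
    rfl
  have h6 : Ideal.span (Set.range fun k => Ideal.Quotient.mk I0 (X k)) ≤
      (Ideal.span (Set.range fun k : Fin N =>
        (Ideal.Quotient.mk (tors R (QA q)) (Ideal.Quotient.mk (qI q) (X k)) : S))).map j := by
    rw [Ideal.map_span, Ideal.span_le]
    rintro _ ⟨k, rfl⟩
    refine Ideal.subset_span ⟨π (X k), ⟨k, rfl⟩, ?_⟩
    change e.symm (π (X k)) = _
    rw [← he, AlgEquiv.symm_apply_apply]
  rw [pow_one]
  refine (Ideal.mul_mono h5.ge h6).trans ?_
  rw [← Ideal.map_mul]

end Pool.Agent.Helper98.TQ
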