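import Pool.Agent.Helper65.TW.Defs2
import Pool.Agent.Helper83.QM.Qend
import Pool.Agent.Helper16.QM.Conic

/-!
# TOWERS, quadric cones: definitions
-/

set_option autoImplicit false

namespace Pool.Agent.Helper98.TQ

open MvPolynomial Pool.Agent.Helper49.QU

section

variable {R : Type} [CommRing R] {N : ℕ}

/-- three generic vectors -/
noncomputable def vv (R : Type) [CommRing R] (N : ℕ) :
    Fin 3 → Fin N → MvPolynomial (Fin (3 * N)) R :=
  fun c j => X (finProdFinEquiv (c, j))

/-- the product of the Gram minors of three generic vectors -/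
noncomputable def aP (q : Matrix (Fin N) (Fin N) R) : MvPolynomial (Fin (3 * N)) R :=
  D1 (q.map C) (vv R N) * D2 (q.map C) (vv R N) * D3 (q.map C) (vv R N)

/-- the ideal of the `3 × 3` minors -/
def Mi (q : Matrix (Fin N) (Fin N) R) : Ideal R :=
  Ideal.span (Set.range fun fg : (Fin 3 → Fin N) × (Fin 3 → Fin N) =>
      (q.submatrix fg.1 fg.2).det)

/-- the ideal of the coefficients -/
noncomputable def Co (q : Matrix (Fin N) (Fin N) R) : Ideal R :=
  Ideal.span (Set.range fun d => (aP q).coeff d)

/-- the ideal of the quadric cone -/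
noncomputable abbrev qI (q : Matrix (Fin N) (Fin N) R) : Ideal (MvPolynomial (Fin N) R) :=
  Ideal.span {∑ j, ∑ k, MvPolynomial.C (q j k) * MvPolynomial.X j * MvPolynomial.X k}

/-- the quadric cone -/
abbrev QA (q : Matrix (Fin N) (Fin N) R) : Type := MvPolynomial (Fin N) R ⧸ qI q

end

end Pool.Agent.Helper98.TQ
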