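import Pool.Agent.Helper98.TQ.Defs

/-!
# TOWERS, quadric cones: frames (text only, never import)
-/

set_option autoImplicit false

namespace Pool.Agent.Helper98.TQ.Fr

open NumberField MvPolynomial Pool.Agent.Helper4.CB Pool.Agent.Helper69.CB
open Pool.Agent.Helper65.CL (Bad)
open Pool.Agent.Helper65.CB (HS)
open Pool.Agent.Helper49.QU Pool.Agent.Helper65.TW
open Pool.Agent.Helper83.QM (Iso Rk3)
open Pool.Agent.Helper98.TQ

/-- **TQ1** (helper45). For a prime `p` containing `Co q`: over `Frac (R / p)` some three vectors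
have nonzero Gram minors as soon as some minor is not in `p` (`Helper49.QU.exists_three`,
`D_ne_zero`), so `Mi q ≤ radical (Co q)`, `Ideal.exists_pow_le_of_le_radical_of_fg`. -/
theorem coeff_pow {K R : Type} [Field K] [CharZero K] [CommRing R] [Algebra K R]
    [IsNoetherianRing R] {t : Ideal R} {N s : ℕ} (q : Matrix (Fin N) (Fin N) R) (hq : q.IsSymm)
    (hs : t ^ s ≤ Mi q) : ∃ s' : ℕ, t ^ s' ≤ Co q := by
  sorry

/-- **TQ2** (helper57). -/
theorem aP_ne {R : Type} [CommRing R] [IsDomain R] {t : Ideal R} (ht : t ≠ ⊥) {N s' : ℕ}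
    (q : Matrix (Fin N) (Fin N) R) (hs : t ^ s' ≤ Co q) : aP q ≠ 0 := by
  sorry

/-- **TQ2'** (helper57). each irreducible factor divides `D1`, `D2` or `D3`, which have degree at
most two in each variable (Helper11/QU/Core). -/
theorem tri_aP {R : Type} [CommRing R] [IsDomain R] {N : ℕ} (q : Matrix (Fin N) (Fin N) R)
    (ha : aP q ≠ 0) (P : MvPolynomial (Fin (3 * N)) (FractionRing R)) (hP : Irreducible P)
    (hd : P ∣ MvPolynomial.map (algebraMap R (FractionRing R)) (aP q)) : TriDeg 3 P := by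
  sorry

/-- **TQ3** (helper16) from `Helper83.Rel.hs_of_vals`, `e = f = 0`. -/
theorem hs_of_units {M : Type} [Field M] [NumberField M] {Λ : Finset ℕ} (h2 : 2 ∈ Λ) {J : ℕ}
    {x y : M} (hx : x ≠ 0) (hy : y ≠ 0) (h : ∀ p : Pl M, Bad Λ J p → vl p x = 1 ∧ vl p y = 1) :
    HS M J x y := by
  sorry

/-- **TQ4** (helper16). `haff` = T7b, `hstr` = T7a for `Localization.Away (aP q)`. -/
theorem iso_points {K M R : Type} [Field K] [Field M] [NumberField M] [Algebra K M] [CommRing R]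
    [IsDomain R] [Algebra K R] {Λ : Finset ℕ} (h2 : 2 ∈ Λ) {t : Ideal R} {N : ℕ}
    (q : Matrix (Fin N) (Fin N) R) (hq : q.IsSymm) (ha : aP q ≠ 0)
    (hstr : ∀ (G' τ' : Finset (Localization.Away (aP q))),
      t.map (algebraMap R (Localization.Away (aP q))) ≤ Ideal.span (τ' : Set _) →
      ∃ J0 : ℕ, ∀ J, J0 ≤ J → ∀ f : Localization.Away (aP q), f ≠ 0 →
        ∃ φ : Localization.Away (aP q) →ₐ[K] M, φ f ≠ 0 ∧
          ∀ p : Pl M, Bad Λ J p → (∀ g ∈ G', vl p (φ g) ≤ 1) ∧ ∃ x ∈ τ', vl p (φ x) = 1)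
    (G τ : Finset R) (hτ : Ideal.span (τ : Set R) = t) (J1 : ℕ) :
    ∃ (J : ℕ) (_ : J1 ≤ J) (L : Type) (_ : Field L) (_ : NumberField L) (_ : Algebra M L)
      (_ : Algebra K L) (_ : IsScalarTower K M L), ∀ f : R, f ≠ 0 →
        ∃ φ : R →ₐ[K] M, φ f ≠ 0 ∧
        (∀ p : Pl M, Bad Λ J p → (∀ g ∈ G, vl p (φ g) ≤ 1) ∧ ∃ x ∈ τ, vl p (φ x) = 1) ∧
        Iso (q.map fun x => algebraMap M L (φ x)) := by
  sorry

/-- **TQ5** (helper33). A prime `P` of `QA q` not containing `c` and over `0` of `R` (localize at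
the elements `r c ^ k`), `Ω = Frac`, `Helper83.QM.elim` with `H = R`, `exists_aniso`. -/
theorem quad_density {K R : Type} [Field K] [CharZero K] [CommRing R] [IsDomain R] [Algebra K R]
    {N : ℕ} (q : Matrix (Fin N) (Fin N) R) (hq : q.IsSymm) (hr : Mi q ≠ ⊥)
    (L : Type) [Field L] [CharZero L] [Algebra K L] (Good : (R →ₐ[K] L) → Prop)
    (hpt : ∀ f : R, f ≠ 0 → ∃ φ : R →ₐ[K] L, φ f ≠ 0 ∧ Good φ ∧ Iso (q.map φ))
    (c : MvPolynomial (Fin N) R) (hc : Ideal.Quotient.mk (qI q) c ∉ tors R (QA q))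
    (f : R) (hf : f ≠ 0) :
    ∃ φ : R →ₐ[K] L, Good φ ∧ φ f ≠ 0 ∧ ∃ y : Fin N → L, bil (q.map φ) y y = 0 ∧
      eval₂ (φ : R →+* L) y c ≠ 0 := by
  sorry

/-- **TQ6** (helper43). `lam` an integer multiple of a common denominator of the `y j`, the
polynomial `lam ↦ c (lam y)` is not zero since it is not zero at `1`. -/
theorem exists_scale {L R : Type} [Field L] [NumberField L] [CommRing R] {N : ℕ} (χ : R →+* L)
    (y : Fin N → L) (c : MvPolynomial (Fin N) R) (hc : eval₂ χ y c ≠ 0) :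
    ∃ lam : L, (∀ (j : Fin N) (w : Pl L), vl w (lam * y j) ≤ 1) ∧
      eval₂ χ (fun j => lam * y j) c ≠ 0 := by
  sorry

/-- **TQ7** (helper98). -/
theorem exists_delta (R B : Type) [CommRing R] [IsDomain R] [CommRing B] [IsNoetherianRing B]
    [Algebra R B] : ∃ δ : R, δ ≠ 0 ∧ ∀ b ∈ tors R B, IsNilpotent (δ • b) := by
  sorry

/-- **TQ7'** (helper98). -/
theorem gen_pt {K R L : Type} [Field K] [CommRing R] [IsDomain R] [Algebra K R] [Field L]
    [Algebra K L] {N : ℕ} (q : Matrix (Fin N) (Fin N) R) {δ : R}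
    (hδ : ∀ b ∈ tors R (QA q), IsNilpotent (δ • b)) (φ : R →ₐ[K] L) (hφ : φ δ ≠ 0)
    (y : Fin N → L) (hy : bil (q.map φ) y y = 0) :
    ∃ ψ : Gen R (QA q) →ₐ[K] L, (∀ r, ψ (algebraMap R _ r) = φ r) ∧
      ∀ c, ψ (Ideal.Quotient.mk _ (Ideal.Quotient.mk _ c)) = eval₂ (φ : R →+* L) y c := by
  sorry

/-- **TQ8** (helper98). -/
theorem gen_adjoin {K R : Type} [Field K] [CommRing R] [IsDomain R] [Algebra K R] (G : Finset R)
    (hG : Algebra.adjoin K (G : Set R) = ⊤) {N : ℕ} (q : Matrix (Fin N) (Fin N) R) :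
    Algebra.adjoin K ((algebraMap R (Gen R (QA q)) '' (G : Set R)) ∪
      Set.range fun j : Fin N => (Ideal.Quotient.mk (tors R (QA q)) (Ideal.Quotient.mk (qI q)
        (X j)) : Gen R (QA q))) = ⊤ := by
  sorry

end Pool.Agent.Helper98.TQ.Fr
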