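import Pool.Agent.Helper98.TQ.Defs

/-!
# TOWERS, quadric cones: points and generators of the generic part
-/

set_option autoImplicit false

namespace Pool.Agent.Helper98.TQ

open NumberField MvPolynomial Pool.Agent.Helper4.CB Pool.Agent.Helper69.CB
open Pool.Agent.Helper49.QU Pool.Agent.Helper65.TW

/-- **TQ7.** one element of `R` makes all torsion nilpotent -/
theorem exists_delta (R B : Type) [CommRing R] [IsDomain R] [CommRing B] [IsNoetherianRing B]
    [Algebra R B] : ∃ δ : R, δ ≠ 0 ∧ ∀ b ∈ tors R B, IsNilpotent (δ • b) := by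
  classical
  obtain ⟨S, hS⟩ := (isNoetherianRing_iff_ideal_fg B).1 inferInstance (tors R B)
  have h1 : ∀ b : B, ∃ r : R, b ∈ S → r ≠ 0 ∧ IsNilpotent (r • b) := by
    intro b
    by_cases hb : b ∈ S
    · have h2 : b ∈ tors R B := by
        rw [← hS]
        exact Ideal.subset_span hb
      obtain ⟨r, hr, h3⟩ := h2
      exact ⟨r, fun _ => ⟨hr, h3⟩⟩
    · exact ⟨0, fun h => absurd h hb⟩
  choose r hr using h1
  refine ⟨∏ b ∈ S, r b, Finset.prod_ne_zero_iff.2 fun b hb => (hr b hb).1, ?_⟩
  -- the elements `b` with `δ b` nilpotent form an ideal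
  let I : Ideal B := Submodule.comap (LinearMap.mulLeft B (algebraMap R B (∏ b ∈ S, r b)))
    (nilradical B)
  have hI : tors R B ≤ I := by
    rw [← hS]
    refine Ideal.span_le.2 ?_
    intro b hb
    have h2 : algebraMap R B (∏ b ∈ S, r b) * b ∈ nilradical B := by
      rw [mem_nilradical, ← Finset.prod_erase_mul S r (show b ∈ S from hb), map_mul, mul_assoc]
      refine (Commute.all _ _).isNilpotent_mul_left ?_
      rw [← Algebra.smul_def]
      exact (hr b hb).2
    exact h2
  intro b hb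
  have h2 : algebraMap R B (∏ b ∈ S, r b) * b ∈ nilradical B := hI hb
  rw [Algebra.smul_def]
  exact mem_nilradical.1 h2

/-- **TQ7'.** -/
theorem gen_pt {K R L : Type} [Field K] [CommRing R] [IsDomain R] [Algebra K R] [Field L]
    [Algebra K L] {N : ℕ} (q : Matrix (Fin N) (Fin N) R) {δ : R}
    (hδ : ∀ b ∈ tors R (QA q), IsNilpotent (δ • b)) (φ : R →ₐ[K] L) (hφ : φ δ ≠ 0)
    (y : Fin N → L) (hy : bil (q.map φ) y y = 0) :
    ∃ ψ : Gen R (QA q) →ₐ[K] L, (∀ r, ψ (algebraMap R _ r) = φ r) ∧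
      ∀ c, ψ (Ideal.Quotient.mk _ (Ideal.Quotient.mk _ c)) = eval₂ (φ : R →+* L) y c := by
  -- the point of the polynomial ring
  let e : MvPolynomial (Fin N) R →ₐ[K] L :=
    { MvPolynomial.eval₂Hom (φ : R →+* L) y with
      commutes' := by
        intro a
        have h1 : algebraMap K (MvPolynomial (Fin N) R) a = C (algebraMap K R a) := rfl
        change MvPolynomial.eval₂Hom (φ : R →+* L) y (algebraMap K (MvPolynomial (Fin N) R) a) = _
        rw [h1, coe_eval₂Hom, eval₂_C]
        exact φ.commutes a }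
  have he : ∀ c, e c = eval₂ (φ : R →+* L) y c := fun c => rfl
  let e1 : QA q →ₐ[K] L := Ideal.Quotient.liftₐ (qI q) e (by
    intro c hc
    obtain ⟨d, rfl⟩ := Ideal.mem_span_singleton.1 hc
    rw [map_mul]
    have h1 : e (∑ j, ∑ k, MvPolynomial.C (q j k) * MvPolynomial.X j * MvPolynomial.X k) = 0 := by
      rw [← hy]
      unfold bil
      rw [map_sum]
      refine Finset.sum_congr rfl fun j _ => ?_
      rw [map_sum]
      refine Finset.sum_congr rfl fun k _ => ?_
      rw [map_mul, map_mul, he, he, he, eval₂_C, eval₂_X, eval₂_X, Matrix.map_apply]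
      change φ (q j k) * y j * y k = _
      ring
    rw [h1, zero_mul])
  have he1 : ∀ c, e1 (Ideal.Quotient.mk _ c) = eval₂ (φ : R →+* L) y c := fun c => rfl
  let e2 : Gen R (QA q) →ₐ[K] L := Ideal.Quotient.liftₐ (tors R (QA q)) e1 (by
    intro b hb
    have h1 := (hδ b hb).map e1
    have h2 : e1 (δ • b) = φ δ * e1 b := by
      have h5 : δ • b = algebraMap R (QA q) δ * b := Algebra.smul_def δ b
      have h3 : algebraMap R (QA q) δ = Ideal.Quotient.mk _ (C δ) := rfl
      rw [h5, map_mul, h3, he1, eval₂_C]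
      rfl
    rw [h2] at h1
    exact (mul_eq_zero.1 h1.eq_zero).resolve_left hφ)
  refine ⟨e2, fun r => ?_, fun c => rfl⟩
  have h3 : algebraMap R (Gen R (QA q)) r = Ideal.Quotient.mk _ (Ideal.Quotient.mk _ (C r)) := rfl
  have h4 : e2 (algebraMap R (Gen R (QA q)) r) = eval₂ (φ : R →+* L) y (C r) := by
    rw [h3]
    rfl
  rw [h4, eval₂_C]
  rfl

/-- **TQ8.** -/
theorem gen_adjoin {K R : Type} [Field K] [CommRing R] [IsDomain R] [Algebra K R] (G : Finset R)
    (hG : Algebra.adjoin K (G : Set R) = ⊤) {N : ℕ} (q : Matrix (Fin N) (Fin N) R) :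
    Algebra.adjoin K ((algebraMap R (Gen R (QA q)) '' (G : Set R)) ∪
      Set.range fun j : Fin N => (Ideal.Quotient.mk (tors R (QA q)) (Ideal.Quotient.mk (qI q)
        (X j)) : Gen R (QA q))) = ⊤ := by
  rw [eq_top_iff]
  set S := Algebra.adjoin K ((algebraMap R (Gen R (QA q)) '' (G : Set R)) ∪
      Set.range fun j : Fin N => (Ideal.Quotient.mk (tors R (QA q)) (Ideal.Quotient.mk (qI q)
        (X j)) : Gen R (QA q))) with hS
  have hR : ∀ r : R, algebraMap R (Gen R (QA q)) r ∈ S := by
    intro r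
    have h1 : r ∈ Algebra.adjoin K (G : Set R) := by rw [hG]; trivial
    have h2 := Algebra.adjoin_le (S := S.comap (IsScalarTower.toAlgHom K R (Gen R (QA q))))
      (s := (G : Set R)) (fun g hg => Algebra.subset_adjoin (Or.inl ⟨g, hg, rfl⟩)) h1
    exact h2
  rintro b -
  obtain ⟨b, rfl⟩ := Ideal.Quotient.mk_surjective b
  obtain ⟨c, rfl⟩ := Ideal.Quotient.mk_surjective b
  induction c using MvPolynomial.induction_on with
  | C r => exact hR r
  | add c d hc hd =>
    rw [map_add, map_add]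
    exact add_mem hc hd
  | mul_X c j hc =>
    rw [map_mul, map_mul]
    exact mul_mem hc (Algebra.subset_adjoin (Or.inr ⟨j, rfl⟩))

end Pool.Agent.Helper98.TQ
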