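import Pool.Agent.Helper98.TQ.Defs
import Pool.Agent.Helper57.TQ.Two
import Pool.Agent.Helper83.Rel.Util

/-!
# TOWERS, quadric cones: isotropic points
-/

set_option autoImplicit false

namespace Pool.Agent.Helper98.TQ

open NumberField MvPolynomial Pool.Agent.Helper4.CB Pool.Agent.Helper69.CB
open Pool.Agent.Helper65.CL (Bad)
open Pool.Agent.Helper65.CB (HS)
open Pool.Agent.Helper49.QU Pool.Agent.Helper65.TW
open Pool.Agent.Helper83.QM (Iso Rk3)

theorem hs_of_units {M : Type} [Field M] [NumberField M] {Λ : Finset ℕ} (h2 : 2 ∈ Λ) {J : ℕ}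
    {x y : M} (hx : x ≠ 0) (hy : y ≠ 0) (h : ∀ p : Pl M, Bad Λ J p → vl p x = 1 ∧ vl p y = 1) :
    HS M J x y := by
  refine Pool.Agent.Helper83.Rel.hs_of_vals hx hy fun p hp => ?_
  obtain ⟨h3, h4⟩ := h p ⟨2, h2, hp⟩
  refine ⟨1, x, y, 1, 1, 0, 0, by simp, by simp, h3, h4, map_one _, ?_⟩
  have h5 : (1 : M) ^ 2 * ((-1) ^ (0 * 0) * (x ^ 0 * y ^ 0)) - 1 ^ 2 = 0 := by simp
  rw [h5, map_zero]
  exact zero_lt_one

/-- **TQ4** -/
theorem iso_points {K M R : Type} [Field K] [Field M] [NumberField M] [Algebra K M] [CommRing R]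
    [IsDomain R] [Algebra K R] {Λ : Finset ℕ} (h2 : 2 ∈ Λ) {t : Ideal R} {N : ℕ}
    (q : Matrix (Fin N) (Fin N) R) (hq : q.IsSymm) (ha : aP q ≠ 0)
    (hstr : ∀ (G' τ' : Finset (Localization.Away (aP q))),
      t.map (algebraMap R (Localization.Away (aP q))) ≤ Ideal.span (τ' : Set _) →
      ∃ J0 : ℕ, ∀ J, J0 ≤ J → ∀ f : Localization.Away (aP q), f ≠ 0 →
        ∃ φ : Localization.Away (aP q) →ₐ[K] M, φ f ≠ 0 ∧
          ∀ p : Pl M, Bad Λ J p → (∀ g ∈ G', vl p (φ g) ≤ 1) ∧ ∃ x ∈ τ', vl p (φ x) = 1)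
    (G τ : Finset R) (hτ : Ideal.span (τ : Set R) = t) (J1 : ℕ) :
    ∃ (J : ℕ) (_ : J1 ≤ J) (L : Type) (_ : Field L) (_ : NumberField L) (_ : Algebra M L)
      (_ : Algebra K L) (_ : IsScalarTower K M L), ∀ f : R, f ≠ 0 →
        ∃ φ : R →ₐ[K] M, φ f ≠ 0 ∧
        (∀ p : Pl M, Bad Λ J p → (∀ g ∈ G, vl p (φ g) ≤ 1) ∧ ∃ x ∈ τ, vl p (φ x) = 1) ∧
        Iso (q.map fun x => algebraMap M L (φ x)) := by
  classical
  let A := MvPolynomial (Fin (3 * N)) R
  let S := Localization.Away (aP q)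
  let ι : A →+* S := algebraMap A S
  let v : Fin 3 → Fin N → A := vv R N
  let B : Matrix (Fin N) (Fin N) A := q.map C
  have hRS : ∀ r : R, algebraMap R S r = ι (C r) := fun r =>
    IsScalarTower.algebraMap_apply R A S r
  have hinjι : Function.Injective ι :=
    IsLocalization.injective S (powers_le_nonZeroDivisors_of_noZeroDivisors ha)
  have hinjR : Function.Injective (algebraMap R S) := by
    intro x y hxy
    rw [hRS, hRS] at hxy
    exact C_injective _ _ (hinjι hxy)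
  let ia : S := IsLocalization.Away.invSelf (aP q)
  have hia : ι (aP q) * ia = 1 := IsLocalization.Away.mul_invSelf (aP q)
  obtain ⟨J0, hJ0⟩ := hstr (G.image (algebraMap R S) ∪ {ι (D1 B v), ι (D2 B v), ι (D3 B v), ia})
    (τ.image (algebraMap R S)) (by
      rw [Finset.coe_image, ← hτ]
      exact (Ideal.map_span _ _).le)
  let J := max J0 J1
  obtain ⟨L, iL, aML, hfin, hL⟩ := Pool.Agent.Helper65.CB.solve M J
    (Pool.Agent.Helper16.CB.algebraic_block M J)
  let aKL : Algebra K L := ((algebraMap M L).comp (algebraMap K M)).toAlgebra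
  have htw : IsScalarTower K M L := IsScalarTower.of_algebraMap_eq (fun x => rfl)
  have hNL : NumberField L := NumberField.of_module_finite M L
  refine ⟨J, le_max_right _ _, L, iL, hNL, aML, aKL, htw, fun f hf => ?_⟩
  obtain ⟨φ', hφf, hφ⟩ := hJ0 J (le_max_left _ _) (algebraMap R S f) (by
    rwa [Ne, map_eq_zero_iff _ hinjR])
  let φ : R →ₐ[K] M :=
    { (φ' : S →+* M).comp (algebraMap R S) with
      commutes' := by
        intro x
        change φ' (algebraMap R S (algebraMap K R x)) = _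
        rw [← IsScalarTower.algebraMap_apply K R S]
        exact φ'.commutes x }
  have hφe : ∀ r, φ r = φ' (algebraMap R S r) := fun r => rfl
  let θ : A →+* M := (φ' : S →+* M).comp ι
  have hθC : ∀ r, θ (C r) = φ r := fun r => by rw [hφe, hRS]; rfl
  -- the values of the Gram minors
  have hu : ∀ p : Pl M, Bad Λ J p → vl p (θ (D1 B v)) = 1 ∧ vl p (θ (D2 B v)) = 1 ∧
      vl p (θ (D3 B v)) = 1 := by
    intro p hp
    obtain ⟨h3, -⟩ := hφ p hp
    have h4 : vl p (θ (D1 B v)) ≤ 1 := h3 (ι (D1 B v)) (by simp)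
    have h5 : vl p (θ (D2 B v)) ≤ 1 := h3 (ι (D2 B v)) (by simp)
    have h6 : vl p (θ (D3 B v)) ≤ 1 := h3 (ι (D3 B v)) (by simp)
    have h7 := h3 ia (by simp)
    have h8 : vl p (θ (D1 B v)) * vl p (θ (D2 B v)) * vl p (θ (D3 B v)) * vl p (φ' ia) = 1 := by
      rw [← map_mul, ← map_mul, ← map_mul, ← map_mul, ← map_mul]
      have h9 : θ (D1 B v * D2 B v * D3 B v) * φ' ia = 1 := by
        change φ' (ι (aP q)) * φ' ia = 1
        rw [← map_mul, hia, map_one]
      rw [h9, map_one]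
    have key : ∀ x y : WithZero (Multiplicative ℤ), x ≤ 1 → y ≤ 1 → x * y = 1 → x = 1 := by
      intro x y hx hy hxy
      refine le_antisymm hx ?_
      rw [← hxy]
      exact mul_le_of_le_one_right' hy
    generalize vl p (θ (D1 B v)) = x1 at h4 h8 ⊢
    generalize vl p (θ (D2 B v)) = x2 at h5 h8 ⊢
    generalize vl p (θ (D3 B v)) = x3 at h6 h8 ⊢
    generalize vl p (φ' ia) = x4 at h7 h8 ⊢
    have h10 : x1 = 1 := key _ _ h4 (mul_le_one' h5 (mul_le_one' h6 h7)) (by rw [← h8]; ac_rfl)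
    have h11 : x2 = 1 := key _ _ h5 (mul_le_one' h4 (mul_le_one' h6 h7)) (by rw [← h8]; ac_rfl)
    have h12 : x3 = 1 := key _ _ h6 (mul_le_one' h4 (mul_le_one' h5 h7)) (by rw [← h8]; ac_rfl)
    exact ⟨h10, h11, h12⟩
  have hnz : θ (D1 B v) * θ (D2 B v) * θ (D3 B v) ≠ 0 := by
    intro h0
    have h9 : θ (D1 B v * D2 B v * D3 B v) * φ' ia = 1 := by
      change φ' (ι (aP q)) * φ' ia = 1
      rw [← map_mul, hia, map_one]
    rw [map_mul, map_mul, h0, zero_mul] at h9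
    exact zero_ne_one h9
  have hd3 := right_ne_zero_of_mul hnz
  have hd2 := right_ne_zero_of_mul (left_ne_zero_of_mul hnz)
  have hd1 := left_ne_zero_of_mul (left_ne_zero_of_mul hnz)
  -- the conic
  have hHS : HS M J (-θ (D2 B v)) (-(θ (D1 B v) * θ (D2 B v) * θ (D3 B v))) := by
    refine hs_of_units h2 (neg_ne_zero.2 hd2) (neg_ne_zero.2 hnz) fun p hp => ?_
    obtain ⟨h3, h4, h5⟩ := hu p hp
    rw [Valuation.map_neg, Valuation.map_neg, map_mul, map_mul, h3, h4, h5, one_mul, one_mul]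
    exact ⟨rfl, rfl⟩
  obtain ⟨-, -, X, Y, hXY⟩ := hL _ _ hHS
  let χ : A →+* L := (algebraMap M L).comp θ
  have hχ : ∀ x, χ x = algebraMap M L (θ x) := fun x => rfl
  have hinjL : Function.Injective (algebraMap M L) := (algebraMap M L).injective
  have hB : B.map χ = q.map fun x => algebraMap M L (φ x) := by
    ext j k
    change χ (C (q j k)) = algebraMap M L (φ (q j k))
    rw [hχ, hθC]
  have hne : ∀ x : M, x ≠ 0 → algebraMap M L x ≠ 0 := fun x hx => by
    rwa [Ne, map_eq_zero_iff _ hinjL]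
  have e1 : D1 (B.map χ) (fun c j => χ (v c j)) = algebraMap M L (θ (D1 B v)) := by
    rw [← Pool.Agent.Helper57.TQ.map_D1]
    rfl
  have e2 : D2 (B.map χ) (fun c j => χ (v c j)) = algebraMap M L (θ (D2 B v)) := by
    rw [← Pool.Agent.Helper57.TQ.map_D2]
    rfl
  have e3 : D3 (B.map χ) (fun c j => χ (v c j)) = algebraMap M L (θ (D3 B v)) := by
    rw [← Pool.Agent.Helper57.TQ.map_D3]
    rfl
  have hsym : (B.map χ).IsSymm := (hq.map _).map _
  obtain ⟨hiso, -⟩ := Pool.Agent.Helper16.QM.iso_of_conic (B.map χ) hsym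
    (fun c j => χ (v c j)) (by rw [e1]; exact hne _ hd1) (by rw [e2]; exact hne _ hd2)
    (by rw [e3]; exact hne _ hd3) X Y (by
      rw [qa, qb, e1, e2, e3]
      rw [map_neg, map_neg, map_mul, map_mul] at hXY
      linear_combination hXY)
  rw [hB] at hiso
  refine ⟨φ, hφf, fun p hp => ?_, hiso⟩
  obtain ⟨h3, x, hx, hx1⟩ := hφ p hp
  obtain ⟨y, hy, rfl⟩ := Finset.mem_image.1 hx
  exact ⟨fun g hg => h3 _ (Finset.mem_union_left _ (Finset.mem_image_of_mem _ hg)), y, hy, hx1⟩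

end Pool.Agent.Helper98.TQ
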