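import Pool.Agent.Helper65.TW.Basic

/-!
# TOWERS: roots of unity, fewer primes
-/

set_option autoImplicit false

namespace Pool.Agent.Helper98.TQ

open NumberField Pool.Agent.Helper4.CB Pool.Agent.Helper69.CB
open Pool.Agent.Helper65.CL (Bad)
open Pool.Agent.Helper65.TW

/-- a number field with given roots of unity -/
theorem exists_roots {K : Type} [Field K] (M0 : Type) [Field M0] [NumberField M0] [Algebra K M0]
    (Λ : Finset ℕ) (hΛ : ∀ l ∈ Λ, l.Prime) :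
    ∃ (M : Type) (_ : Field M) (_ : NumberField M) (_ : Algebra K M) (_ : Algebra M0 M)
      (_ : IsScalarTower K M0 M), (∀ l ∈ Λ, ∃ ζ : M, IsPrimitiveRoot ζ l) ∧
        ∃ i : M, IsPrimitiveRoot i 4 := by
  let n : ℕ := 4 * ∏ l ∈ Λ, l
  have hn : 0 < n := Nat.mul_pos (by norm_num) (Finset.prod_pos fun l hl => (hΛ l hl).pos)
  have : NeZero n := ⟨hn.ne'⟩
  have : NeZero (n : M0) := ⟨Nat.cast_ne_zero.2 hn.ne'⟩
  let M : Type := CyclotomicField n M0
  let _ : Algebra K M := ((algebraMap M0 M).comp (algebraMap K M0)).toAlgebra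
  have hz := IsCyclotomicExtension.zeta_spec n M0 M
  have hp : ∀ d : ℕ, d ∣ n → ∃ ζ : M, IsPrimitiveRoot ζ d := by
    rintro d ⟨e, he⟩
    exact ⟨_, hz.pow hn (by rw [he, mul_comm])⟩
  refine ⟨M, inferInstance, inferInstance, inferInstance, inferInstance,
    IsScalarTower.of_algebraMap_eq fun x => rfl, fun l hl => hp l ?_, hp 4 ⟨_, rfl⟩⟩
  exact Dvd.dvd.mul_left (Finset.dvd_prod_of_mem _ hl) 4

/-- fewer primes -/
theorem SUM.mono {K M R : Type} [Field K] [Field M] [NumberField M] [Algebra K M] [CommRing R]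
    [Algebra K R] {Λ Λ' : Finset ℕ} (hΛ : Λ ⊆ Λ') {t : Ideal R} (h : SUM K M R Λ' t) :
    SUM K M R Λ t := by
  obtain ⟨G, τ, J, hG, hτ, h1⟩ := h
  refine ⟨G, τ, J, hG, hτ, fun f hf => ?_⟩
  obtain ⟨φ, h2, h3⟩ := h1 f hf
  refine ⟨φ, h2, fun p hp => h3 p ?_⟩
  obtain ⟨l, hl, h4⟩ := hp
  exact ⟨l, hΛ hl, h4⟩

end Pool.Agent.Helper98.TQ
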