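import Pool.Agent.Helper33.TQ.Dens
import Pool.Agent.Helper43.TQ.Scale
import Pool.Agent.Helper45.TQ.Coeff
import Pool.Agent.Helper57.TQ.Two
import Pool.Agent.Helper60.TW.Affine
import Pool.Agent.Helper98.TQ.Gen
import Pool.Agent.Helper98.TQ.Iso
import Pool.Agent.Helper98.TQ.Roots
import Pool.Agent.Helper82.TW.BadUp
import Pool.Agent.Helper8.TW.BadOver

/-!
# TOWERS, quadric cones
-/

set_option autoImplicit false

namespace Pool.Agent.Helper98.TQ

open NumberField MvPolynomial Pool.Agent.Helper4.CB Pool.Agent.Helper69.CB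
open Pool.Agent.Helper65.CL (Bad)
open Pool.Agent.Helper65.CB (HS)
open Pool.Agent.Helper49.QU Pool.Agent.Helper65.TW
open Pool.Agent.Helper83.QM (Iso Rk3)
open Pool.Agent.Helper82.BR (below)
open Pool.Agent.Helper33.TQ (quad_density)
open Pool.Agent.Helper43.TQ (exists_scale)
open Pool.Agent.Helper45.TQ (coeff_pow)
open Pool.Agent.Helper57.TQ (aP_ne tri_aP)
open Pool.Agent.Helper60.TW (su_affine)

/-- quadric cones, one field -/
theorem sum_quad_of {K M R : Type} [Field K] [NumberField K] [Field M] [NumberField M]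
    [Algebra K M] [CommRing R] [IsDomain R] [Algebra K R] [Algebra.FiniteType K R] {Λ : Finset ℕ}
    (hΛ : ∀ l ∈ Λ, l.Prime) (h2 : 2 ∈ Λ) (hζ : ∀ l ∈ Λ, ∃ ζ : M, IsPrimitiveRoot ζ l)
    (h4 : ∃ i : M, IsPrimitiveRoot i 4) {t : Ideal R} {N : ℕ} (q : Matrix (Fin N) (Fin N) R)
    (hq : q.IsSymm) (ha : aP q ≠ 0) (hr : Mi q ≠ ⊥)
    (haff : SUM K M (Localization.Away (aP q)) Λ
      (t.map (algebraMap R (Localization.Away (aP q))))) :
    ∃ (L : Type) (_ : Field L) (_ : NumberField L) (_ : Algebra M L)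
      (_ : Algebra K L) (_ : IsScalarTower K M L),
      SUM K L (Gen R (QA q)) Λ (t.map (algebraMap R (Gen R (QA q)))) := by
  classical
  have hN : IsNoetherianRing R := Algebra.FiniteType.isNoetherianRing K R
  obtain ⟨G, hG⟩ := (Algebra.FiniteType.out : (⊤ : Subalgebra K R).FG)
  obtain ⟨τ, hτ⟩ := (IsNoetherian.noetherian t : t.FG)
  obtain ⟨J, -, L, iL, nL, aL, aKL, htw, hiso⟩ := iso_points h2 q hq ha
    (fun G' τ' h1 => haff.strong hΛ G' τ' 1 (by rwa [pow_one])) G τ hτ 0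
  refine ⟨L, iL, nL, aL, aKL, htw, ?_⟩
  obtain ⟨δ, hδ0, hδ⟩ := exists_delta R (QA q)
  let y : Fin N → Gen R (QA q) := fun j =>
    Ideal.Quotient.mk (tors R (QA q)) (Ideal.Quotient.mk (qI q) (X j))
  refine ⟨G.image (algebraMap R (Gen R (QA q))) ∪ Finset.univ.image y,
    τ.image (algebraMap R (Gen R (QA q))), J + Module.finrank M L, ?_, ?_, ?_⟩
  · rw [Finset.coe_union, Finset.coe_image, Finset.coe_image, Finset.coe_univ, Set.image_univ]
    exact gen_adjoin G hG q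
  · rw [Finset.coe_image, ← hτ]
    exact (Ideal.map_span _ _).symm
  intro f hf
  obtain ⟨b, rfl⟩ := Ideal.Quotient.mk_surjective f
  obtain ⟨c, rfl⟩ := Ideal.Quotient.mk_surjective b
  have hc : Ideal.Quotient.mk (qI q) c ∉ tors R (QA q) := fun h =>
    hf (Ideal.Quotient.eq_zero_iff_mem.2 h)
  have hinj : Function.Injective (algebraMap M L) := (algebraMap M L).injective
  obtain ⟨χ, ⟨φ, hφ, hφG⟩, hδχ, y0, hy0, hc0⟩ := quad_density q hq hr L
    (fun χ => ∃ φ : R →ₐ[K] M, (∀ r, χ r = algebraMap M L (φ r)) ∧ ∀ p : Pl M, Bad Λ J p →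
      (∀ g ∈ G, vl p (φ g) ≤ 1) ∧ ∃ x ∈ τ, vl p (φ x) = 1)
    (by
      intro f hf
      obtain ⟨φ, h1, h3, h5⟩ := hiso f hf
      refine ⟨(IsScalarTower.toAlgHom K M L).comp φ, ?_, ⟨φ, fun r => rfl, h3⟩, h5⟩
      exact fun h => h1 (hinj (by rw [map_zero]; exact h)))
    c hc δ hδ0
  obtain ⟨lam, hlam, hc1⟩ := exists_scale (χ : R →+* L) y0 c hc0
  have hy1 : bil (q.map χ) (fun j => lam * y0 j) (fun j => lam * y0 j) = 0 := by
    have h1 : bil (q.map χ) (fun j => lam * y0 j) (fun j => lam * y0 j) =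
        lam ^ 2 * bil (q.map χ) y0 y0 := by
      unfold bil
      rw [Finset.mul_sum]
      refine Finset.sum_congr rfl fun j _ => ?_
      rw [Finset.mul_sum]
      refine Finset.sum_congr rfl fun k _ => ?_
      ring
    rw [h1, hy0, mul_zero]
  obtain ⟨ψ, hψ1, hψ2⟩ := gen_pt q hδ χ hδχ _ hy1
  refine ⟨ψ, by rw [hψ2]; exact hc1, fun w hw => ?_⟩
  have hp : Bad Λ J (below M w) := Pool.Agent.Helper8.TW.bad_over hΛ hζ (fun _ => h4) J _ le_rfl w
    hw _ rfl
  obtain ⟨h5, x, hx, hx1⟩ := hφG _ hp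
  refine ⟨fun g hg => ?_, _, Finset.mem_image_of_mem _ hx, ?_⟩
  · rcases Finset.mem_union.1 hg with hg | hg
    · obtain ⟨r, hr, rfl⟩ := Finset.mem_image.1 hg
      rw [hψ1, hφ]
      exact ((Pool.Agent.Helper82.TW.vl_below w (φ r)).1).2 (h5 r hr)
    · obtain ⟨j, -, rfl⟩ := Finset.mem_image.1 hg
      change vl w (ψ (Ideal.Quotient.mk _ (Ideal.Quotient.mk _ (X j)))) ≤ 1
      rw [hψ2, eval₂_X]
      exact hlam j w
  · rw [hψ1, hφ]
    exact ((Pool.Agent.Helper82.TW.vl_below w (φ x)).2).2 hx1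

/-- quadric cones, one field -/
theorem sum_quad {K M R : Type} [Field K] [NumberField K] [Field M] [NumberField M]
    [Algebra K M] [CommRing R] [IsDomain R] [Algebra K R] [Algebra.FiniteType K R] {Λ : Finset ℕ}
    (hΛ : ∀ l ∈ Λ, l.Prime) (h2 : 2 ∈ Λ) (hζ : ∀ l ∈ Λ, ∃ ζ : M, IsPrimitiveRoot ζ l)
    (h4 : ∃ i : M, IsPrimitiveRoot i 4) {t : Ideal R} (h : SUM K M R Λ t) (ht : t ≠ ⊥)
    {N s : ℕ} (q : Matrix (Fin N) (Fin N) R)
    (hq : q.IsSymm) (hs : t ^ s ≤ Mi q) :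
    ∃ (L : Type) (_ : Field L) (_ : NumberField L) (_ : Algebra M L)
      (_ : Algebra K L) (_ : IsScalarTower K M L),
      SUM K L (Gen R (QA q)) Λ (t.map (algebraMap R (Gen R (QA q)))) := by
  have hN : IsNoetherianRing R := Algebra.FiniteType.isNoetherianRing K R
  obtain ⟨s', hs'⟩ := coeff_pow (K := K) q hq hs
  have ha := aP_ne ht q hs'
  refine sum_quad_of hΛ h2 hζ h4 q hq ha (fun h0 => ?_)
    (su_affine hΛ h (aP q) hs' (fun P hP hd => tri_aP q ha P hP hd) ha)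
  rw [h0, le_bot_iff] at hs
  exact pow_ne_zero s ht hs

/-- **TQ.** quadric cones; the ideal of the `3 × 3` minors -/
theorem su_quad {K R : Type} [Field K] [NumberField K] [CommRing R]
    [IsDomain R] [Algebra K R] [Algebra.FiniteType K R] {t : Ideal R} (h : SU K R t)
    (ht : t ≠ ⊥) {N s : ℕ} (q : Matrix (Fin N) (Fin N) R) (hq : q.IsSymm)
    (hs : t ^ s ≤ Ideal.span (Set.range fun fg : (Fin 3 → Fin N) × (Fin 3 → Fin N) =>
      (q.submatrix fg.1 fg.2).det)) :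
    SU K (Gen R (MvPolynomial (Fin N) R ⧸ Ideal.span {∑ j, ∑ k,
        MvPolynomial.C (q j k) * MvPolynomial.X j * MvPolynomial.X k}))
      (t.map (algebraMap R _)) := by
  classical
  intro Λ hΛ M0 _ _ _
  have hΛ' : ∀ l ∈ insert 2 Λ, l.Prime := by
    intro l hl
    rcases Finset.mem_insert.1 hl with rfl | hl
    · exact Nat.prime_two
    · exact hΛ l hl
  obtain ⟨M1, _, _, _, _, _, hζ, i, hi⟩ := exists_roots (K := K) M0 (insert 2 Λ) hΛ'
  obtain ⟨M, _, _, _, _, _, hM⟩ := h (insert 2 Λ) hΛ' M1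
  have hinj : Function.Injective (algebraMap M1 M) := (algebraMap M1 M).injective
  obtain ⟨L, _, _, aML, aKL, htw, hL⟩ := sum_quad hΛ' (Finset.mem_insert_self 2 Λ)
    (fun l hl => by
      obtain ⟨ζ, h1⟩ := hζ l hl
      exact ⟨_, h1.map_of_injective hinj⟩)
    ⟨_, hi.map_of_injective hinj⟩ hM ht q hq hs
  let a0 : Algebra M0 L := ((algebraMap M L).comp ((algebraMap M1 M).comp
    (algebraMap M0 M1))).toAlgebra
  refine ⟨L, inferInstance, inferInstance, aKL, a0, IsScalarTower.of_algebraMap_eq fun x => ?_,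
    SUM.mono (Finset.subset_insert 2 Λ) hL⟩
  change algebraMap K L x = algebraMap M L (algebraMap M1 M (algebraMap M0 M1
    (algebraMap K M0 x)))
  rw [← IsScalarTower.algebraMap_apply K M0 M1, ← IsScalarTower.algebraMap_apply K M1 M,
    ← IsScalarTower.algebraMap_apply K M L]

end Pool.Agent.Helper98.TQ
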